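import Pool.Agent.H89.FM.Targets2

/-!
# The number of the lattices containing a vector
-/

set_option autoImplicit false

namespace Pool.Agent.H98.FM.CNL

open Pool.Agent.H31.CN Pool.Agent.H89.FM

/-- the contribution of a divisor -/
def Fv (v : ℤ × ℤ) (k : ℕ) : ℕ := if (k : ℤ) ∣ v.1 ∧ (k : ℤ) ∣ v.2 then k else 0

theorem Fv_mul (v : ℤ × ℤ) (a b : ℕ) (h : Nat.Coprime a b) :
    Fv v (a * b) = Fv v a * Fv v b := by
  have hc : IsCoprime (a : ℤ) (b : ℤ) := Nat.isCoprime_iff_coprime.2 h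
  have key : ∀ z : ℤ, ((a * b : ℕ) : ℤ) ∣ z ↔ (a : ℤ) ∣ z ∧ (b : ℤ) ∣ z := by
    intro z
    push_cast
    exact ⟨fun h => ⟨dvd_of_mul_right_dvd h, dvd_of_mul_left_dvd h⟩,
      fun h => hc.mul_dvd h.1 h.2⟩
  have hk : (((a * b : ℕ) : ℤ) ∣ v.1 ∧ ((a * b : ℕ) : ℤ) ∣ v.2) ↔
      ((a : ℤ) ∣ v.1 ∧ (a : ℤ) ∣ v.2) ∧ ((b : ℤ) ∣ v.1 ∧ (b : ℤ) ∣ v.2) := by
    rw [key, key]
    tauto
  unfold Fv
  by_cases h1 : (a : ℤ) ∣ v.1 ∧ (a : ℤ) ∣ v.2
  · by_cases h2 : (b : ℤ) ∣ v.1 ∧ (b : ℤ) ∣ v.2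
    · rw [if_pos h1, if_pos h2, if_pos (hk.2 ⟨h1, h2⟩)]
    · rw [if_pos h1, if_neg h2, if_neg (fun h3 => h2 (hk.1 h3).2), mul_zero]
  · rw [if_neg h1, if_neg (fun h3 => h1 (hk.1 h3).1), zero_mul]

theorem sumFv_mul (v : ℤ × ℤ) (f m : ℕ) (h : Nat.Coprime f m) :
    ∑ k ∈ (f * m).divisors, Fv v k =
      (∑ k ∈ f.divisors, Fv v k) * ∑ k ∈ m.divisors, Fv v k := by
  rw [Nat.divisors_mul, Finset.mul_def, Finset.sum_image, Finset.sum_product, Finset.sum_mul_sum]
  · refine Finset.sum_congr rfl fun a ha => Finset.sum_congr rfl fun b hb => ?_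
    refine Fv_mul v a b ?_
    exact (h.coprime_dvd_left (Nat.dvd_of_mem_divisors ha)).coprime_dvd_right
      (Nat.dvd_of_mem_divisors hb)
  · exact h.mul_injOn_divisors

open Classical in
/-- the number of the lattices of index `g` that contain `v` -/
noncomputable def Nv (v : ℤ × ℤ) (g : ℕ) : ℕ := ((Ls g).filter (fun L => v ∈ L)).card

open Classical in
theorem Nv_mul (hCRT : T_CRT) (v : ℤ × ℤ) (f m : ℕ) (hf : 1 ≤ f) (hm : 1 ≤ m)
    (h : Nat.Coprime f m) : Nv v (f * m) = Nv v f * Nv v m := by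
  obtain ⟨h1, h2, h3⟩ := hCRT f m hf hm h
  unfold Nv
  rw [← Finset.card_product]
  symm
  refine Finset.card_bij (fun p _ => p.1 ⊓ p.2) ?_ ?_ ?_
  · intro p hp
    rw [Finset.mem_product, Finset.mem_filter, Finset.mem_filter] at hp
    rw [Finset.mem_filter]
    exact ⟨h1 _ hp.1.1 _ hp.2.1, hp.1.2, hp.2.2⟩
  · intro p hp q hq he
    rw [Finset.mem_product, Finset.mem_filter, Finset.mem_filter] at hp hq
    obtain ⟨e1, e2⟩ := h3 _ hp.1.1 _ hp.2.1 _ hq.1.1 _ hq.2.1 he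
    exact Prod.ext e1 e2
  · intro L hL
    rw [Finset.mem_filter] at hL
    obtain ⟨L₁, hL1, L₂, hL2, he⟩ := h2 L hL.1
    have hv : v ∈ L₁ ⊓ L₂ := he ▸ hL.2
    refine ⟨(L₁, L₂), ?_, he.symm⟩
    rw [Finset.mem_product, Finset.mem_filter, Finset.mem_filter]
    exact ⟨⟨hL1, hv.1⟩, hL2, hv.2⟩

/-- the identity of three vectors -/
theorem dvd_det (p : ℕ) (hp : p.Prime) (u v w : ℤ × ℤ) (hv : ¬ ((p : ℤ) ∣ v.1 ∧ (p : ℤ) ∣ v.2))
    (h1 : (p : ℤ) ∣ det u v) (h2 : (p : ℤ) ∣ det v w) : (p : ℤ) ∣ det u w := by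
  have hp' : Prime (p : ℤ) := Nat.prime_iff_prime_int.1 hp
  have e1 : det u w * v.1 = det u v * w.1 + det v w * u.1 := by
    simp only [det]
    ring
  have e2 : det u w * v.2 = det u v * w.2 + det v w * u.2 := by
    simp only [det]
    ring
  have d1 : (p : ℤ) ∣ det u w * v.1 := by
    rw [e1]
    exact dvd_add (Dvd.dvd.mul_right h1 _) (Dvd.dvd.mul_right h2 _)
  have d2 : (p : ℤ) ∣ det u w * v.2 := by
    rw [e2]
    exact dvd_add (Dvd.dvd.mul_right h1 _) (Dvd.dvd.mul_right h2 _)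
  rcases hp'.dvd_or_dvd d1 with h3 | h3
  · exact h3
  · rcases hp'.dvd_or_dvd d2 with h4 | h4
    · exact h4
    · exact absurd ⟨h3, h4⟩ hv

theorem det_symm_dvd (p : ℕ) (u v : ℤ × ℤ) (h : (p : ℤ) ∣ det u v) : (p : ℤ) ∣ det v u := by
  have e : det v u = -det u v := by
    simp only [det]
    ring
  rw [e]
  exact (dvd_neg).2 h

theorem cop_iff (p : ℕ) (hp : p.Prime) (v : ℤ × ℤ) :
    Nat.Coprime (Int.gcd v.1 v.2) p ↔ ¬ ((p : ℤ) ∣ v.1 ∧ (p : ℤ) ∣ v.2) := by
  rw [Nat.coprime_comm, hp.coprime_iff_not_dvd, ← Int.natCast_dvd_natCast, Int.dvd_coe_gcd_iff]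

open Classical in
theorem Nv_prime (hFLS : T_FLS) (hGEN : T_GEN) (hLSP : T_LSP) (v : ℤ × ℤ) (p : ℕ)
    (hp : p.Prime) : Nv v p = ∑ k ∈ p.divisors, Fv v k := by
  have hs : ∑ k ∈ p.divisors, Fv v k = 1 + Fv v p := by
    rw [hp.sum_divisors, add_comm]
    congr 1
    unfold Fv
    simp
  rw [hs]
  by_cases hv : (p : ℤ) ∣ v.1 ∧ (p : ℤ) ∣ v.2
  · have h1 : Fv v p = p := by
      unfold Fv
      rw [if_pos hv]
    rw [h1]
    unfold Nv
    rw [Finset.filter_true_of_mem, (hLSP p hp).1, add_comm]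
    intro L hL
    obtain ⟨a, ha⟩ := hv.1
    obtain ⟨b, hb⟩ := hv.2
    have h2 := (hFLS p L hp.one_lt.le).2 hL (a, b)
    have h3 : (p : ℤ) • ((a, b) : ℤ × ℤ) = v := by
      refine Prod.ext ?_ ?_
      · show (p : ℤ) * a = v.1
        exact ha.symm
      · show (p : ℤ) * b = v.2
        exact hb.symm
    rwa [h3] at h2
  · have h1 : Fv v p = 0 := by
      unfold Fv
      rw [if_neg hv]
    rw [h1]
    unfold Nv
    have h2 : (Ls p).filter (fun L => v ∈ L) = {Lw p v} := by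
      ext L
      rw [Finset.mem_filter, Finset.mem_singleton]
      constructor
      · rintro ⟨hL, hvL⟩
        obtain ⟨u, hu, rfl⟩ := hGEN.2 p L hp.squarefree hL
        rw [cop_iff p hp] at hu
        have huv : (p : ℤ) ∣ det u v := hvL
        refine le_antisymm (fun w hw => ?_) (fun w hw => ?_)
        · exact dvd_det p hp v u w hu (det_symm_dvd p u v huv) hw
        · exact dvd_det p hp u v w hv huv hw
      · rintro rfl
        refine ⟨hGEN.1 p v hp.one_lt.le ((cop_iff p hp v).2 hv), ?_⟩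
        show (p : ℤ) ∣ det v v
        have : det v v = 0 := by
          simp only [det]
          ring
        rw [this]
        exact dvd_zero _
    rw [h2, Finset.card_singleton]

open Classical in
theorem Nv_one (hFLS : T_FLS) (v : ℤ × ℤ) : Nv v 1 = 1 := by
  unfold Nv
  have h : (Ls 1).filter (fun L => v ∈ L) = {⊤} := by
    ext L
    rw [Finset.mem_filter, Finset.mem_singleton, (hFLS 1 L le_rfl).1, AddSubgroup.index_eq_one]
    constructor
    · exact fun h => h.1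
    · rintro rfl
      exact ⟨rfl, AddSubgroup.mem_top v⟩
  rw [h, Finset.card_singleton]

theorem Nv_eq (hFLS : T_FLS) (hGEN : T_GEN) (hCRT : T_CRT) (hLSP : T_LSP) (v : ℤ × ℤ) :
    ∀ g : ℕ, Squarefree g → Nv v g = ∑ k ∈ g.divisors, Fv v k := by
  intro g
  induction g using Nat.strong_induction_on with
  | _ g ih =>
    intro hg
    rcases eq_or_ne g 1 with rfl | h1
    · rw [Nv_one hFLS]
      unfold Fv
      simp
    · have hp : (g.minFac).Prime := Nat.minFac_prime h1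
      obtain ⟨m, hm⟩ := Nat.minFac_dvd g
      have hcop : Nat.Coprime g.minFac m := by
        refine Nat.coprime_of_squarefree_mul ?_
        rw [← hm]
        exact hg
      have hgpos : 0 < g := Nat.pos_of_ne_zero hg.ne_zero
      have hm0 : 1 ≤ m := by
        rcases Nat.eq_zero_or_pos m with h | h
        · rw [h, mul_zero] at hm
          omega
        · exact h
      have hlt : m < g := by
        have h2 : 2 ≤ g.minFac := hp.two_le
        calc m < 2 * m := by omega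
          _ ≤ g.minFac * m := Nat.mul_le_mul_right m h2
          _ = g := hm.symm
      have hmsq : Squarefree m := hg.squarefree_of_dvd ⟨g.minFac, by rw [mul_comm]; exact hm⟩
      have e1 : Nv v g = Nv v (g.minFac * m) := by rw [← hm]
      have e2 : ∑ k ∈ g.divisors, Fv v k = ∑ k ∈ (g.minFac * m).divisors, Fv v k := by
        rw [← hm]
      rw [e1, e2, Nv_mul hCRT v _ m hp.one_lt.le hm0 hcop, sumFv_mul v _ m hcop,
        Nv_prime hFLS hGEN hLSP v _ hp, ih m hlt hmsq]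

end Pool.Agent.H98.FM.CNL

namespace Pool.Agent.H98.FM

open Pool.Agent.H31.CN Pool.Agent.H89.FM

theorem pf_CNL (hFLS : T_FLS) (hGEN : T_GEN) (hCRT : T_CRT) (hLSP : T_LSP) : T_CNL := by
  intro g v hg
  have h := CNL.Nv_eq hFLS hGEN hCRT hLSP v g hg
  unfold CNL.Nv CNL.Fv at h
  rw [h, Finset.sum_filter]

end Pool.Agent.H98.FM
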