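import Pool.Agent.H89.FM.Targets2

/-!
# Sublattices of coprime indices
-/

set_option autoImplicit false

namespace Pool.Agent.H98.FM

open Pool.Agent.H31.CN Pool.Agent.H89.FM

/-- the vectors whose multiple by `m` is in `L` -/
def LmC (m : ℤ) (L : AddSubgroup (ℤ × ℤ)) : AddSubgroup (ℤ × ℤ) where
  carrier := {v | m • v ∈ L}
  zero_mem' := by
    show m • (0 : ℤ × ℤ) ∈ L
    rw [smul_zero]
    exact L.zero_mem
  add_mem' := by
    intro a b ha hb
    show m • (a + b) ∈ L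
    rw [smul_add]
    exact L.add_mem ha hb
  neg_mem' := by
    intro a ha
    show m • (-a) ∈ L
    rw [smul_neg]
    exact L.neg_mem ha

theorem mem_LmC (m : ℤ) (L : AddSubgroup (ℤ × ℤ)) (v : ℤ × ℤ) : v ∈ LmC m L ↔ m • v ∈ L := Iff.rfl

theorem le_LmC (m : ℤ) (L : AddSubgroup (ℤ × ℤ)) : L ≤ LmC m L := fun _ hv => L.zsmul_mem hv m

/-- a lattice of finite index that contains the multiples by `f` -/
theorem index_dvd_of_mul (f m : ℕ) (L : AddSubgroup (ℤ × ℤ)) (hf : 1 ≤ f) (hc : Nat.Coprime f m)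
    (h : ∀ v : ℤ × ℤ, (f : ℤ) • v ∈ L) (hd : L.index ∣ f * m) (h0 : L.index ≠ 0) :
    L.index ∣ f := by
  have hcop : Nat.Coprime L.index m := by
    rw [Nat.coprime_iff_gcd_eq_one]
    by_contra hne
    obtain ⟨p, hp, hpd⟩ := Nat.exists_prime_and_dvd hne
    have hp1 : p ∣ L.index := hpd.trans (Nat.gcd_dvd_left _ _)
    have hp2 : p ∣ m := hpd.trans (Nat.gcd_dvd_right _ _)
    have : Fact p.Prime := ⟨hp⟩
    have : Finite ((ℤ × ℤ) ⧸ L) := Nat.finite_of_card_ne_zero h0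
    obtain ⟨x, hx⟩ := exists_prime_addOrderOf_dvd_card' (G := (ℤ × ℤ) ⧸ L) p hp1
    have hfx : f • x = 0 := by
      obtain ⟨v, rfl⟩ := QuotientAddGroup.mk'_surjective L x
      rw [← map_nsmul]
      refine (QuotientAddGroup.eq_zero_iff _).2 ?_
      have := h v
      rwa [natCast_zsmul] at this
    have hpf : p ∣ f := by
      rw [← hx]
      exact addOrderOf_dvd_of_nsmul_eq_zero hfx
    exact hp.one_lt.ne' (Nat.dvd_one.1 (hc ▸ Nat.dvd_gcd hpf hp2))
  exact hcop.dvd_of_dvd_mul_right hd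

theorem pf_CRT (hFLS : T_FLS) : T_CRT := by
  intro f m hf hm hc
  have hfm : 1 ≤ f * m := Nat.one_le_iff_ne_zero.2 (Nat.mul_ne_zero (by omega) (by omega))
  obtain ⟨a, b, hab⟩ : IsCoprime (m : ℤ) (f : ℤ) := Nat.isCoprime_iff_coprime.2 hc.symm
  have hv : ∀ v : ℤ × ℤ, a • ((m : ℤ) • v) + b • ((f : ℤ) • v) = v := by
    intro v
    rw [smul_smul, smul_smul, ← add_smul, hab, one_smul]
  have hone : ∀ L : AddSubgroup (ℤ × ℤ), ∀ v : ℤ × ℤ, (m : ℤ) • v ∈ L → (f : ℤ) • v ∈ L → v ∈ L := by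
    intro L v h1 h2
    rw [← hv v]
    exact L.add_mem (L.zsmul_mem h1 a) (L.zsmul_mem h2 b)
  refine ⟨fun L₁ h₁ L₂ h₂ => ?_, fun L hL => ?_, fun L₁ h₁ L₂ h₂ L₁' h₁' L₂' h₂' he => ?_⟩
  · have i1 : L₁.index = f := ((hFLS f L₁ hf).1).1 h₁
    have i2 : L₂.index = m := ((hFLS m L₂ hm).1).1 h₂
    refine ((hFLS (f * m) (L₁ ⊓ L₂) hfm).1).2 ?_
    have hle : (L₁ ⊓ L₂).index ≤ f * m := by
      have := AddSubgroup.index_inf_le (H := L₁) (K := L₂)
      rwa [i1, i2] at this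
    have hne : (L₁ ⊓ L₂).index ≠ 0 :=
      AddSubgroup.index_inf_ne_zero (by rw [i1]; omega) (by rw [i2]; omega)
    have d1 : f ∣ (L₁ ⊓ L₂).index := by
      rw [← i1]
      exact AddSubgroup.index_dvd_of_le inf_le_left
    have d2 : m ∣ (L₁ ⊓ L₂).index := by
      rw [← i2]
      exact AddSubgroup.index_dvd_of_le inf_le_right
    have d3 : f * m ∣ (L₁ ⊓ L₂).index := hc.mul_dvd_of_dvd_of_dvd d1 d2
    exact le_antisymm hle (Nat.le_of_dvd (Nat.pos_of_ne_zero hne) d3)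
  · have i0 : L.index = f * m := ((hFLS (f * m) L hfm).1).1 hL
    have hmul : ∀ v : ℤ × ℤ, ((f * m : ℕ) : ℤ) • v ∈ L := (hFLS (f * m) L hfm).2 hL
    have hinf : L = LmC m L ⊓ LmC f L := by
      refine le_antisymm (le_inf (le_LmC _ L) (le_LmC _ L)) ?_
      intro v hv'
      exact hone L v hv'.1 hv'.2
    have hd1 : (LmC m L).index ∣ f * m := by
      rw [← i0]
      exact AddSubgroup.index_dvd_of_le (le_LmC _ L)
    have hd2 : (LmC f L).index ∣ m * f := by
      rw [mul_comm, ← i0]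
      exact AddSubgroup.index_dvd_of_le (le_LmC _ L)
    have hn1 : (LmC m L).index ≠ 0 := fun h => by
      rw [h] at hd1
      have := Nat.eq_zero_of_zero_dvd hd1
      omega
    have hn2 : (LmC f L).index ≠ 0 := fun h => by
      rw [h, mul_comm] at hd2
      have := Nat.eq_zero_of_zero_dvd hd2
      omega
    have e1 : (LmC m L).index ∣ f := by
      refine index_dvd_of_mul f m _ hf hc (fun v => ?_) hd1 hn1
      rw [mem_LmC, smul_smul]
      have := hmul v
      push_cast at this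
      rwa [mul_comm] at this
    have e2 : (LmC f L).index ∣ m := by
      refine index_dvd_of_mul m f _ hm hc.symm (fun v => ?_) hd2 hn2
      rw [mem_LmC, smul_smul]
      have := hmul v
      push_cast at this
      exact this
    have l1 : (LmC m L).index ≤ f := Nat.le_of_dvd (by omega) e1
    have l2 : (LmC f L).index ≤ m := Nat.le_of_dvd (by omega) e2
    have l3 : f * m ≤ (LmC m L).index * (LmC f L).index := by
      have := AddSubgroup.index_inf_le (H := LmC m L) (K := LmC f L)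
      rwa [← hinf, i0] at this
    have r1 : (LmC m L).index = f := by
      by_contra hne
      have hlt : (LmC m L).index < f := lt_of_le_of_ne l1 hne
      have : (LmC m L).index * (LmC f L).index < f * m :=
        Nat.mul_lt_mul_of_lt_of_le hlt l2 (by omega)
      omega
    have r2 : (LmC f L).index = m := by
      by_contra hne
      have hlt : (LmC f L).index < m := lt_of_le_of_ne l2 hne
      have : (LmC m L).index * (LmC f L).index < f * m :=
        Nat.mul_lt_mul_of_le_of_lt l1 hlt (by omega)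
      omega
    exact ⟨LmC m L, ((hFLS f _ hf).1).2 r1, LmC f L, ((hFLS m _ hm).1).2 r2, hinf⟩
  · have key : ∀ (A B A' B' : AddSubgroup (ℤ × ℤ)), A ∈ Ls f → B ∈ Ls m → A' ∈ Ls f → A ⊓ B = A' ⊓ B' →
        A ≤ A' := by
      intro A B A' B' hA hB hA' h v hvA
      have h1 : (m : ℤ) • v ∈ A ⊓ B :=
        ⟨A.zsmul_mem hvA m, (hFLS m B hm).2 hB v⟩
      rw [h] at h1
      exact hone A' v h1.1 ((hFLS f A' hf).2 hA' v)
    have key' : ∀ (A B A' B' : AddSubgroup (ℤ × ℤ)), A ∈ Ls f → B ∈ Ls m → B' ∈ Ls m → A ⊓ B = A' ⊓ B' →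
        B ≤ B' := by
      intro A B A' B' hA hB hB' h v hvB
      have h1 : (f : ℤ) • v ∈ A ⊓ B :=
        ⟨(hFLS f A hf).2 hA v, B.zsmul_mem hvB f⟩
      rw [h] at h1
      exact hone B' v ((hFLS m B' hm).2 hB' v) h1.2
    exact ⟨le_antisymm (key L₁ L₂ L₁' L₂' h₁ h₂ h₁' he) (key L₁' L₂' L₁ L₂ h₁' h₂' h₁ he.symm),
      le_antisymm (key' L₁ L₂ L₁' L₂' h₁ h₂ h₂' he) (key' L₁' L₂' L₁ L₂ h₁' h₂' h₂ he.symm)⟩

end Pool.Agent.H98.FM
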