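import Pool.Agent.H89.FM.Targets2
import Mathlib.GroupTheory.SpecificGroups.ZGroup

/-!
# Sublattices of squarefree index
-/

set_option autoImplicit false

namespace Pool.Agent.H98.FM

open Pool.Agent.H31.CN Pool.Agent.H89.FM

/-- the homomorphism `v ↦ det u v` modulo `n` -/
def phiU (n : ℕ) (u : ℤ × ℤ) : (ℤ × ℤ) →+ ZMod n where
  toFun v := ((det u v : ℤ) : ZMod n)
  map_zero' := by simp [det]
  map_add' := by
    intro a b
    have h : det u (a + b) = det u a + det u b := by simp [det]; ring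
    rw [h]
    push_cast
    ring

theorem phiU_ker (n : ℕ) (u : ℤ × ℤ) : (phiU n u).ker = Lw n u := by
  ext v
  rw [AddMonoidHom.mem_ker]
  exact ZMod.intCast_zmod_eq_zero_iff_dvd (det u v) n

theorem phiU_surj (n : ℕ) (u : ℤ × ℤ) (h : Nat.Coprime (Int.gcd u.1 u.2) n) :
    Function.Surjective (phiU n u) := by
  intro z
  obtain ⟨t, rfl⟩ := ZMod.intCast_surjective z
  have h1 : IsCoprime ((Int.gcd u.1 u.2 : ℕ) : ℤ) (n : ℤ) := Nat.isCoprime_iff_coprime.2 h
  obtain ⟨a, b, hab⟩ := h1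
  refine ⟨(-(t * a * Int.gcdB u.1 u.2), t * a * Int.gcdA u.1 u.2), ?_⟩
  have h2 : det u (-(t * a * Int.gcdB u.1 u.2), t * a * Int.gcdA u.1 u.2) =
      t * (a * ((Int.gcd u.1 u.2 : ℕ) : ℤ)) := by
    rw [Int.gcd_eq_gcd_ab]
    simp only [det]
    ring
  have h3 : t * (a * ((Int.gcd u.1 u.2 : ℕ) : ℤ)) = t - (n : ℤ) * (t * b) := by
    have h4 : a * ((Int.gcd u.1 u.2 : ℕ) : ℤ) = 1 - b * n := by linarith
    rw [h4]
    ring
  show (((det u (-(t * a * Int.gcdB u.1 u.2), t * a * Int.gcdA u.1 u.2)) : ℤ) : ZMod n) = _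
  rw [h2, h3]
  push_cast
  simp

theorem pf_GEN (hFLS : T_FLS) : T_GEN := by
  refine ⟨fun n u hn hu => ?_, fun n L hn hL => ?_⟩
  · refine ((hFLS n (Lw n u) hn).1).2 ?_
    rw [← phiU_ker, AddSubgroup.index_ker]
    have h1 : (phiU n u).range = ⊤ := AddMonoidHom.range_eq_top.2 (phiU_surj n u hu)
    rw [h1]
    have h2 : Nat.card (⊤ : AddSubgroup (ZMod n)) = Nat.card (ZMod n) :=
      Nat.card_congr (AddSubgroup.topEquiv (G := ZMod n)).toEquiv
    rw [h2, Nat.card_zmod]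
  · have hn1 : 1 ≤ n := Nat.one_le_iff_ne_zero.2 hn.ne_zero
    have hi : L.index = n := ((hFLS n L hn1).1).1 hL
    have hc : Nat.card ((ℤ × ℤ) ⧸ L) = n := hi
    have : Finite ((ℤ × ℤ) ⧸ L) := Nat.finite_of_card_ne_zero (by rw [hc]; exact hn.ne_zero)
    have : Finite (Multiplicative ((ℤ × ℤ) ⧸ L)) := ‹Finite ((ℤ × ℤ) ⧸ L)›
    have hc' : Nat.card (Multiplicative ((ℤ × ℤ) ⧸ L)) = n := hc
    have : IsZGroup (Multiplicative ((ℤ × ℤ) ⧸ L)) :=
      IsZGroup.of_squarefree (by rw [hc']; exact hn)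
    have hcyc : IsCyclic (Multiplicative ((ℤ × ℤ) ⧸ L)) :=
      IsCyclic.of_exponent_eq_card (IsZGroup.exponent_eq_card _)
    have hadd : IsAddCyclic ((ℤ × ℤ) ⧸ L) := isCyclic_multiplicative_iff.1 hcyc
    have e : ((ℤ × ℤ) ⧸ L) ≃+ ZMod n := by
      have e1 := (zmodAddCyclicAddEquiv hadd).symm
      rw [hc] at e1
      exact e1
    set φ : (ℤ × ℤ) →+ ZMod n := e.toAddMonoidHom.comp (QuotientAddGroup.mk' L) with hφ
    have hφs : Function.Surjective φ :=
      e.surjective.comp (QuotientAddGroup.mk'_surjective L)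
    have hφk : ∀ v, φ v = 0 ↔ v ∈ L := by
      intro v
      rw [hφ]
      show e ((v : (ℤ × ℤ) ⧸ L)) = 0 ↔ v ∈ L
      rw [EmbeddingLike.map_eq_zero_iff]
      exact QuotientAddGroup.eq_zero_iff v
    obtain ⟨a, ha⟩ := ZMod.intCast_surjective (φ (1, 0))
    obtain ⟨b, hb⟩ := ZMod.intCast_surjective (φ (0, 1))
    have hφv : ∀ v : ℤ × ℤ, φ v = ((det (b, -a) v : ℤ) : ZMod n) := by
      intro v
      have h1 : v = v.1 • ((1, 0) : ℤ × ℤ) + v.2 • ((0, 1) : ℤ × ℤ) := by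
        ext <;> simp
      have h2 : φ v = v.1 • φ (1, 0) + v.2 • φ (0, 1) := by
        conv_lhs => rw [h1]
        rw [map_add, map_zsmul, map_zsmul]
      rw [h2, ← ha, ← hb]
      simp only [det, zsmul_eq_mul]
      push_cast
      ring
    refine ⟨(b, -a), ?_, ?_⟩
    · obtain ⟨v, hv⟩ := hφs 1
      rw [hφv] at hv
      have h1 : (((det (b, -a) v - 1 : ℤ)) : ZMod n) = 0 := by
        push_cast
        rw [hv]
        simp
      have h2 : (n : ℤ) ∣ det (b, -a) v - 1 := (ZMod.intCast_zmod_eq_zero_iff_dvd _ n).1 h1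
      obtain ⟨k, hk⟩ := h2
      obtain ⟨c1, hc1⟩ := Int.gcd_dvd_left (a := b) (b := -a)
      obtain ⟨c2, hc2⟩ := Int.gcd_dvd_right (a := b) (b := -a)
      have h3 : IsCoprime ((Int.gcd b (-a) : ℕ) : ℤ) (n : ℤ) := by
        refine ⟨c1 * v.2 - c2 * v.1, -k, ?_⟩
        have h4 : det (b, -a) v = b * v.2 - (-a) * v.1 := rfl
        have h5 : b * v.2 - (-a) * v.1 =
            (c1 * v.2 - c2 * v.1) * ((Int.gcd b (-a) : ℕ) : ℤ) := by
          calc b * v.2 - (-a) * v.1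
              = (((Int.gcd b (-a) : ℕ) : ℤ) * c1) * v.2 -
                  (((Int.gcd b (-a) : ℕ) : ℤ) * c2) * v.1 := by rw [← hc1, ← hc2]
            _ = _ := by ring
        rw [← h5, ← h4]
        linarith
      exact Nat.isCoprime_iff_coprime.1 h3
    · ext v
      rw [← hφk, hφv]
      exact ZMod.intCast_zmod_eq_zero_iff_dvd _ n

end Pool.Agent.H98.FM
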