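import Pool.Agent.H89.FM.Targets2

/-!
# A sum over the vectors of a lattice
-/

set_option autoImplicit false

namespace Pool.Agent.H98.FM.LSM

open Pool.Agent.H31.CN Pool.Agent.H89.FM

theorem nr_pos (ρ : ℝ) (v : ℤ × ℤ) (hρ : 0 < ρ) (hv : v ≠ 0) : 0 < nr ρ v := by
  unfold nr
  rcases eq_or_ne v.1 0 with h1 | h1
  · have h2 : v.2 ≠ 0 := fun h2 => hv (Prod.ext h1 h2)
    have h3 : (0 : ℝ) < (v.2 : ℝ) ^ 2 := by positivity
    have h4 : 0 ≤ (v.1 : ℝ) ^ 2 / ρ := by positivity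
    have h5 : 0 < ρ * (v.2 : ℝ) ^ 2 := mul_pos hρ h3
    linarith
  · have h3 : (0 : ℝ) < (v.1 : ℝ) ^ 2 := by positivity
    have h4 : 0 < (v.1 : ℝ) ^ 2 / ρ := div_pos h3 hρ
    have h5 : 0 ≤ ρ * (v.2 : ℝ) ^ 2 := by positivity
    linarith

theorem rpow_le_exp (z s : ℝ) (hz : 0 < z) (h0 : 0 ≤ s) (h1 : s ≤ 1) :
    z ^ s ≤ Real.exp z := by
  rcases le_total z 1 with h | h
  · calc z ^ s ≤ 1 := Real.rpow_le_one hz.le h h0
      _ ≤ Real.exp z := Real.one_le_exp hz.le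
  · calc z ^ s ≤ z ^ (1 : ℝ) := Real.rpow_le_rpow_of_exponent_le h h1
      _ = z := Real.rpow_one z
      _ ≤ Real.exp z := by
        have := Real.add_one_le_exp z
        linarith

/-- the bound of a shell, `E = 2 ^ i` -/
theorem shell (κ T τ E : ℝ) (hκ : 0 < κ) (hκ1 : κ ≤ 1 / 8) (hT : 1 ≤ T) (hτ : 0 < τ)
    (hτ2 : τ ≤ 2) (hE : 1 ≤ E) :
    (Real.sqrt (2 * E) + 2 * (E * τ)) *
      ((E * τ) ^ (-(1 / 2 + κ)) * Real.exp (-(E * τ / T))) ≤
      6 * T * τ ^ (-(1 / 2 + κ)) * E ^ (-κ) := by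
  have hE0 : 0 < E := lt_of_lt_of_le one_pos hE
  have hT0 : 0 < T := lt_of_lt_of_le one_pos hT
  have hX : 0 < E * τ := mul_pos hE0 hτ
  have hta : 0 < τ ^ (-(1 / 2 + κ)) := Real.rpow_pos_of_pos hτ _
  have hek : 0 < E ^ (-κ) := Real.rpow_pos_of_pos hE0 _
  have he1 : Real.exp (-(E * τ / T)) ≤ 1 := Real.exp_le_one_iff.2 (by
    have : 0 ≤ E * τ / T := by positivity
    linarith)
  -- the first part
  have p1 : Real.sqrt (2 * E) * ((E * τ) ^ (-(1 / 2 + κ)) * Real.exp (-(E * τ / T))) ≤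
      2 * (τ ^ (-(1 / 2 + κ)) * E ^ (-κ)) := by
    have s1 : Real.sqrt (2 * E) ≤ 2 * E ^ (1 / 2 : ℝ) := by
      rw [Real.sqrt_mul (by norm_num), ← Real.sqrt_eq_rpow]
      have : Real.sqrt 2 ≤ 2 := by
        rw [Real.sqrt_le_left (by norm_num)]
        norm_num
      exact mul_le_mul_of_nonneg_right this (Real.sqrt_nonneg _)
    have s2 : (E * τ) ^ (-(1 / 2 + κ)) = E ^ (-(1 / 2 + κ)) * τ ^ (-(1 / 2 + κ)) :=
      Real.mul_rpow hE0.le hτ.le
    have s3 : E ^ (1 / 2 : ℝ) * E ^ (-(1 / 2 + κ)) = E ^ (-κ) := by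
      rw [← Real.rpow_add hE0]
      congr 1
      ring
    calc Real.sqrt (2 * E) * ((E * τ) ^ (-(1 / 2 + κ)) * Real.exp (-(E * τ / T)))
        ≤ (2 * E ^ (1 / 2 : ℝ)) * ((E * τ) ^ (-(1 / 2 + κ)) * 1) := by
          refine mul_le_mul s1 ?_ (by positivity) (by positivity)
          exact mul_le_mul_of_nonneg_left he1 (Real.rpow_nonneg hX.le _)
      _ = 2 * (τ ^ (-(1 / 2 + κ)) * (E ^ (1 / 2 : ℝ) * E ^ (-(1 / 2 + κ)))) := by
          rw [s2]
          ring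
      _ = _ := by rw [s3]
  -- the second part
  have p2 : 2 * (E * τ) * ((E * τ) ^ (-(1 / 2 + κ)) * Real.exp (-(E * τ / T))) ≤
      4 * T * (τ ^ (-(1 / 2 + κ)) * E ^ (-κ)) := by
    have e1 : Real.exp (-(E * τ / T)) ≤ (E * τ / T) ^ (-(1 - κ)) := by
      rw [Real.exp_neg, Real.rpow_neg (by positivity)]
      exact inv_anti₀ (Real.rpow_pos_of_pos (by positivity) _)
        (rpow_le_exp _ _ (by positivity) (by linarith) (by linarith))
    have e2 : (E * τ / T) ^ (-(1 - κ)) = (E * τ) ^ (-(1 - κ)) * T ^ (1 - κ) := by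
      rw [Real.div_rpow hX.le hT0.le, Real.rpow_neg hT0.le, div_inv_eq_mul]
    have e3 : (E * τ) * ((E * τ) ^ (-(1 / 2 + κ)) * (E * τ) ^ (-(1 - κ))) =
        (E * τ) ^ (-(1 / 2 : ℝ)) := by
      have : (E * τ) * ((E * τ) ^ (-(1 / 2 + κ)) * (E * τ) ^ (-(1 - κ))) =
          (E * τ) ^ (1 : ℝ) * ((E * τ) ^ (-(1 / 2 + κ)) * (E * τ) ^ (-(1 - κ))) := by
        rw [Real.rpow_one]
      rw [this, ← Real.rpow_add hX, ← Real.rpow_add hX]
      congr 1
      ring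
    have e4 : T ^ (1 - κ) ≤ T := by
      calc T ^ (1 - κ) ≤ T ^ (1 : ℝ) :=
            Real.rpow_le_rpow_of_exponent_le hT (by linarith)
        _ = T := Real.rpow_one T
    have e5 : E ^ (-(1 / 2 : ℝ)) ≤ E ^ (-κ) :=
      Real.rpow_le_rpow_of_exponent_le hE (by linarith)
    have e6 : τ ^ (-(1 / 2 : ℝ)) ≤ 2 * τ ^ (-(1 / 2 + κ)) := by
      have f1 : τ ^ (-(1 / 2 : ℝ)) = τ ^ κ * τ ^ (-(1 / 2 + κ)) := by
        rw [← Real.rpow_add hτ]
        congr 1
        ring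
      have f2 : τ ^ κ ≤ 2 := by
        calc τ ^ κ ≤ 2 ^ κ := Real.rpow_le_rpow hτ.le hτ2 hκ.le
          _ ≤ 2 ^ (1 : ℝ) := Real.rpow_le_rpow_of_exponent_le (by norm_num) (by linarith)
          _ = 2 := Real.rpow_one 2
      rw [f1]
      exact mul_le_mul_of_nonneg_right f2 hta.le
    have e7 : (E * τ) ^ (-(1 / 2 : ℝ)) = E ^ (-(1 / 2 : ℝ)) * τ ^ (-(1 / 2 : ℝ)) :=
      Real.mul_rpow hE0.le hτ.le
    have hxa : 0 ≤ (E * τ) ^ (-(1 / 2 + κ)) := Real.rpow_nonneg hX.le _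
    calc 2 * (E * τ) * ((E * τ) ^ (-(1 / 2 + κ)) * Real.exp (-(E * τ / T)))
        ≤ 2 * (E * τ) * ((E * τ) ^ (-(1 / 2 + κ)) *
            ((E * τ) ^ (-(1 - κ)) * T ^ (1 - κ))) := by
          rw [← e2]
          exact mul_le_mul_of_nonneg_left (mul_le_mul_of_nonneg_left e1 hxa) (by positivity)
      _ = 2 * T ^ (1 - κ) *
            ((E * τ) * ((E * τ) ^ (-(1 / 2 + κ)) * (E * τ) ^ (-(1 - κ)))) := by ring
      _ = 2 * T ^ (1 - κ) * (E ^ (-(1 / 2 : ℝ)) * τ ^ (-(1 / 2 : ℝ))) := by rw [e3, e7]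
      _ ≤ 2 * T * (E ^ (-κ) * (2 * τ ^ (-(1 / 2 + κ)))) := by
          refine mul_le_mul (mul_le_mul_of_nonneg_left e4 (by norm_num)) ?_
            (by positivity) (by positivity)
          exact mul_le_mul e5 e6 (Real.rpow_nonneg hτ.le _) hek.le
      _ = _ := by ring
  have p3 : 2 * (τ ^ (-(1 / 2 + κ)) * E ^ (-κ)) ≤ 2 * T * (τ ^ (-(1 / 2 + κ)) * E ^ (-κ)) := by
    have : 0 ≤ τ ^ (-(1 / 2 + κ)) * E ^ (-κ) := by positivity
    nlinarith
  calc (Real.sqrt (2 * E) + 2 * (E * τ)) *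
      ((E * τ) ^ (-(1 / 2 + κ)) * Real.exp (-(E * τ / T)))
      = Real.sqrt (2 * E) * ((E * τ) ^ (-(1 / 2 + κ)) * Real.exp (-(E * τ / T))) +
        2 * (E * τ) * ((E * τ) ^ (-(1 / 2 + κ)) * Real.exp (-(E * τ / T))) := by ring
    _ ≤ 2 * T * (τ ^ (-(1 / 2 + κ)) * E ^ (-κ)) +
        4 * T * (τ ^ (-(1 / 2 + κ)) * E ^ (-κ)) := add_le_add (p1.trans p3) p2
    _ = _ := by ring

end Pool.Agent.H98.FM.LSM

namespace Pool.Agent.H98.FM

open Pool.Agent.H31.CN Pool.Agent.H89.FM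

open Classical in
theorem pf_LSM (hFLS : T_FLS) (hMIN : T_MIN) (hLCN : T_LCN) : T_LSM := by
  obtain ⟨C₀, hC₀, hcard⟩ := hLCN
  intro κ hκ hκ1
  set q : ℝ := (2 : ℝ) ^ (-κ) with hq
  have hq0 : 0 < q := Real.rpow_pos_of_pos (by norm_num) _
  have hq1 : q < 1 := Real.rpow_lt_one_of_one_lt_of_neg (by norm_num) (by linarith)
  refine ⟨C₀ * 6 * (1 - q)⁻¹, by
    have : 0 < 1 - q := by linarith
    positivity, ?_⟩
  intro ρ T n L hρ hT hn hL
  have hn0 : (0 : ℝ) < n := by exact_mod_cast hn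
  have hT0 : 0 < T := lt_of_lt_of_le one_pos hT
  obtain ⟨v₀, hv₀L, hv₀, hv₀m, hmin, hm2⟩ := hMIN ρ n L hρ hn hL
  have hmn : 0 < mn ρ L := by
    rw [← hv₀m]
    exact LSM.nr_pos ρ v₀ hρ hv₀
  set τ : ℝ := mn ρ L / n with hτd
  have hτ : 0 < τ := div_pos hmn hn0
  have hτ2 : τ ≤ 2 := by
    rw [hτd, div_le_iff₀ hn0]
    linarith
  set f : ℤ × ℤ → ℝ := fun v => if v ∈ L ∧ v ≠ 0 then
      (nr ρ v / n) ^ (-(1 / 2 + κ)) * Real.exp (-(nr ρ v / (n * T))) else 0 with hf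
  have hf0 : ∀ v, 0 ≤ f v := by
    intro v
    rw [hf]
    dsimp only
    split_ifs with h
    · have := LSM.nr_pos ρ v hρ h.2
      positivity
    · exact le_rfl
  have hgs : Summable (fun i : ℕ => C₀ * (6 * T * τ ^ (-(1 / 2 + κ)) * q ^ i)) := by
    refine Summable.mul_left _ (Summable.mul_left _ ?_)
    exact summable_geometric_of_lt_one hq0.le hq1
  have hsum : ∀ F : Finset (ℤ × ℤ), ∑ v ∈ F, f v ≤
      C₀ * 6 * (1 - q)⁻¹ * T * (n / mn ρ L) ^ (1 / 2 + κ) := by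
    intro F
    set F' := F.filter (fun v => v ∈ L ∧ v ≠ 0) with hF'
    have hFF : ∑ v ∈ F, f v = ∑ v ∈ F', f v := by
      rw [hF', Finset.sum_filter]
      refine Finset.sum_congr rfl fun v _ => ?_
      rw [hf]
      dsimp only
      by_cases h : v ∈ L ∧ v ≠ 0
      · rw [if_pos h, if_pos h]
      · rw [if_neg h, if_neg h]
    set idx : ℤ × ℤ → ℕ := fun v => Nat.log 2 ⌊nr ρ v / mn ρ L⌋₊ with hidx
    have hfib : ∀ i : ℕ, ∑ v ∈ F'.filter (fun v => idx v = i), f v ≤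
        C₀ * (6 * T * τ ^ (-(1 / 2 + κ)) * q ^ i) := by
      intro i
      set E : ℝ := 2 ^ i with hE
      have hE1 : 1 ≤ E := one_le_pow₀ (by norm_num)
      have hE0 : 0 < E := lt_of_lt_of_le one_pos hE1
      have hEq : E ^ (-κ) = q ^ i := by
        rw [hE, hq, ← Real.rpow_natCast, ← Real.rpow_natCast, ← Real.rpow_mul (by norm_num),
          ← Real.rpow_mul (by norm_num), mul_comm]
      have hmem : ∀ v ∈ F'.filter (fun v => idx v = i), (v ∈ L ∧ v ≠ 0) ∧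
          E * mn ρ L ≤ nr ρ v ∧ nr ρ v ≤ 2 * E * mn ρ L := by
        intro v hv
        rw [Finset.mem_filter, hF', Finset.mem_filter] at hv
        obtain ⟨⟨-, hvL⟩, hvi⟩ := hv
        have h1 : 1 ≤ nr ρ v / mn ρ L := by
          rw [one_le_div hmn]
          exact hmin v hvL.1 hvL.2
        have h2 : ⌊nr ρ v / mn ρ L⌋₊ ≠ 0 := by
          have : 1 ≤ ⌊nr ρ v / mn ρ L⌋₊ := Nat.le_floor (by exact_mod_cast h1)
          omega
        have h3 : 2 ^ i ≤ ⌊nr ρ v / mn ρ L⌋₊ := by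
          rw [← hvi]
          exact Nat.pow_log_le_self 2 h2
        have h4 : ⌊nr ρ v / mn ρ L⌋₊ < 2 ^ (i + 1) := by
          rw [← hvi]
          exact Nat.lt_pow_succ_log_self (by norm_num) _
        refine ⟨hvL, ?_, ?_⟩
        · have h5 : ((2 ^ i : ℕ) : ℝ) ≤ nr ρ v / mn ρ L :=
            le_trans (by exact_mod_cast h3) (Nat.floor_le (by positivity))
          rw [le_div_iff₀ hmn] at h5
          rw [hE]
          push_cast at h5
          exact h5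
        · have h5 : nr ρ v / mn ρ L < (⌊nr ρ v / mn ρ L⌋₊ : ℝ) + 1 := Nat.lt_floor_add_one _
          have h6 : (⌊nr ρ v / mn ρ L⌋₊ : ℝ) + 1 ≤ ((2 ^ (i + 1) : ℕ) : ℝ) := by
            exact_mod_cast h4
          have h7 : nr ρ v / mn ρ L ≤ 2 * E := by
            refine h5.le.trans (h6.trans ?_)
            rw [hE]
            push_cast
            rw [pow_succ]
            linarith
          rwa [div_le_iff₀ hmn] at h7
      have hterm : ∀ v ∈ F'.filter (fun v => idx v = i), f v ≤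
          (E * τ) ^ (-(1 / 2 + κ)) * Real.exp (-(E * τ / T)) := by
        intro v hv
        obtain ⟨hvL, hlo, -⟩ := hmem v hv
        rw [hf]
        dsimp only
        rw [if_pos hvL]
        have h1 : E * τ ≤ nr ρ v / n := by
          rw [hτd, ← mul_div_assoc]
          exact div_le_div_of_nonneg_right hlo hn0.le
        have h2 : nr ρ v / (n * T) = nr ρ v / n / T := by rw [div_div]
        refine mul_le_mul ?_ ?_ (Real.exp_pos _).le (Real.rpow_nonneg (by positivity) _)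
        · exact Real.rpow_le_rpow_of_nonpos (by positivity) h1 (by linarith)
        · rw [h2]
          refine Real.exp_le_exp.2 (neg_le_neg ?_)
          exact div_le_div_of_nonneg_right h1 hT0.le
      have hc : ((F'.filter (fun v => idx v = i)).card : ℝ) ≤
          C₀ * (Real.sqrt (2 * E) + 2 * (E * τ)) := by
        have h1 := hcard ρ (2 * E * mn ρ L) n L (F'.filter (fun v => idx v = i)) hρ hn hL
          (by nlinarith) (fun v hv => ⟨(hmem v hv).1.1, (hmem v hv).1.2, (hmem v hv).2.2⟩)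
        have h2 : 2 * E * mn ρ L / mn ρ L = 2 * E := by
          field_simp
        have h3 : 2 * E * mn ρ L / n = 2 * (E * τ) := by
          rw [hτd]
          ring
        rwa [h2, h3] at h1
      have hG0 : 0 ≤ (E * τ) ^ (-(1 / 2 + κ)) * Real.exp (-(E * τ / T)) := by positivity
      calc ∑ v ∈ F'.filter (fun v => idx v = i), f v
          ≤ (F'.filter (fun v => idx v = i)).card •
            ((E * τ) ^ (-(1 / 2 + κ)) * Real.exp (-(E * τ / T))) :=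
            Finset.sum_le_card_nsmul _ _ _ hterm
        _ = ((F'.filter (fun v => idx v = i)).card : ℝ) *
            ((E * τ) ^ (-(1 / 2 + κ)) * Real.exp (-(E * τ / T))) := nsmul_eq_mul _ _
        _ ≤ (C₀ * (Real.sqrt (2 * E) + 2 * (E * τ))) *
            ((E * τ) ^ (-(1 / 2 + κ)) * Real.exp (-(E * τ / T))) :=
            mul_le_mul_of_nonneg_right hc hG0
        _ = C₀ * ((Real.sqrt (2 * E) + 2 * (E * τ)) *
            ((E * τ) ^ (-(1 / 2 + κ)) * Real.exp (-(E * τ / T)))) := by ring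
        _ ≤ C₀ * (6 * T * τ ^ (-(1 / 2 + κ)) * E ^ (-κ)) :=
            mul_le_mul_of_nonneg_left (LSM.shell κ T τ E hκ hκ1 hT hτ hτ2 hE1) hC₀
        _ = _ := by rw [hEq]
    rw [hFF, ← Finset.sum_fiberwise_of_maps_to (s := F') (t := F'.image idx) (g := idx)
      (fun v hv => Finset.mem_image_of_mem idx hv)]
    calc ∑ i ∈ F'.image idx, ∑ v ∈ F'.filter (fun v => idx v = i), f v
        ≤ ∑ i ∈ F'.image idx, C₀ * (6 * T * τ ^ (-(1 / 2 + κ)) * q ^ i) :=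
          Finset.sum_le_sum fun i _ => hfib i
      _ ≤ ∑' i : ℕ, C₀ * (6 * T * τ ^ (-(1 / 2 + κ)) * q ^ i) :=
          hgs.sum_le_tsum _ (fun i _ => by positivity)
      _ = C₀ * (6 * T * τ ^ (-(1 / 2 + κ)) * (1 - q)⁻¹) := by
          rw [tsum_mul_left, tsum_mul_left, tsum_geometric_of_lt_one hq0.le hq1]
      _ = C₀ * 6 * (1 - q)⁻¹ * T * (n / mn ρ L) ^ (1 / 2 + κ) := by
          have h1 : (n / mn ρ L) ^ (1 / 2 + κ) = τ ^ (-(1 / 2 + κ)) := by
            rw [Real.rpow_neg hτ.le, ← Real.inv_rpow hτ.le, hτd, inv_div]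
          rw [h1]
          ring
  exact ⟨summable_of_sum_le hf0 hsum, Real.tsum_le_of_sum_le hf0 hsum⟩

end Pool.Agent.H98.FM
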